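import Pool.Agent.Helper70.ML.St3

/-!
# Module PBRU of project ML (Bruhat cells)
-/

set_option autoImplicit false

namespace Pool.Agent.Helper1.ML

open Pool.Agent.Helper70.ML Pool.Agent.Helper75.MX

section

variable {n : ℕ} {F : Type} [Field F] {E : Type} [Group E] {φ : E →* SLn n F}
  {X : Fin n → Fin n → F → E}

/-- the union of the cells -/
def InC (X : Fin n → Fin n → F → E) (x : E) : Prop :=
  ∃ u ∈ Up X, ∃ m ∈ Nh X, ∃ v ∈ Up X, x = u * m * v

theorem inC_right {x y : E} (hx : InC X x) (hy : y ∈ Up X) : InC X (x * y) := by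
  obtain ⟨u, hu, m, hm, v, hv, rfl⟩ := hx
  exact ⟨u, hu, m, hm, v * y, mul_mem hv hy, by group⟩

theorem inC_left {x y : E} (hx : InC X x) (hy : y ∈ Up X) : InC X (y * x) := by
  obtain ⟨u, hu, m, hm, v, hv, rfl⟩ := hx
  exact ⟨y * u, mul_mem hy hu, m, hm, v, hv, by group⟩

theorem inC_mem {m : E} (hm : m ∈ Nh X) : InC X m :=
  ⟨1, one_mem _, m, hm, 1, one_mem _, by group⟩

theorem mem_Up {i j : Fin n} (a : F) (h : i < j) : X i j a ∈ Up X :=
  Subgroup.subset_closure ⟨i, j, a, h, rfl⟩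

theorem conj_Up (hC : Can φ X) (g : E) (σ : Equiv.Perm (Fin n)) (c : Fin n → F)
    (hg : Mono (φ g) σ c) (S : Set E)
    (hS : ∀ x ∈ S, ∃ i j a, i ≠ j ∧ σ i < σ j ∧ x = X i j a) :
    ∀ y ∈ Subgroup.closure S, g * y * g⁻¹ ∈ Up X := by
  intro y hy
  induction hy using Subgroup.closure_induction with
  | mem x hx =>
    obtain ⟨i, j, a, hij, hlt, rfl⟩ := hS x hx
    rw [hC.eqv g σ c hg i j a hij]
    exact mem_Up _ hlt
  | one => simp [one_mem]
  | mul x y _ _ ihx ihy =>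
    have : g * (x * y) * g⁻¹ = (g * x * g⁻¹) * (g * y * g⁻¹) := by group
    rw [this]
    exact mul_mem ihx ihy
  | inv x _ ih =>
    have : g * x⁻¹ * g⁻¹ = (g * x * g⁻¹)⁻¹ := by group
    rw [this]
    exact inv_mem ih

theorem swap_lt {r s k l : Fin n} (hs : (s : ℕ) = r + 1) (hkl : k < l)
    (hne : ¬ (k = r ∧ l = s)) : Equiv.swap r s k < Equiv.swap r s l := by
  have h1 : (k : ℕ) < l := hkl
  have hne' : ¬ ((k : ℕ) = r ∧ (l : ℕ) = s) := by
    rintro ⟨h2, h3⟩
    exact hne ⟨Fin.ext h2, Fin.ext h3⟩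
  have key : ∀ t : Fin n, ((Equiv.swap r s t : Fin n) : ℕ) =
      if (t : ℕ) = r then (s : ℕ) else if (t : ℕ) = s then (r : ℕ) else (t : ℕ) := by
    intro t
    rw [Equiv.swap_apply_def]
    by_cases h : t = r
    · subst h; simp
    · have h' : (t : ℕ) ≠ r := fun h'' => h (Fin.ext h'')
      by_cases h2 : t = s
      · subst h2; simp [h, h']
      · have h2' : (t : ℕ) ≠ s := fun h'' => h2 (Fin.ext h'')
        simp [h, h', h2, h2']
  rw [Fin.lt_def, key k, key l]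
  split_ifs <;> omega

end

theorem hPBRU (hPMON : StPMON) (hPUDC : StPUDC) (hPNHK : StPNHK) : StPBRU := by
  intro n F _ E _ _ φ X hn hSt hWq hTo x hx
  obtain ⟨hm1, hm2, _, _, _, _, _, _⟩ := hPMON n F
  have hC : Can φ X := hSt.toCan
  have hNh := (hPNHK n F E φ X hn hC hWq hTo).2
  have hWmem : ∀ i j : Fin n, i ≠ j → Wr X i j 1 ∈ Nh X := fun i j hij =>
    Subgroup.subset_closure ⟨i, j, hij, Or.inr rfl⟩
  have hHmem : ∀ (i j : Fin n) (a : F), i ≠ j → a ≠ 0 → Hr X i j a ∈ Nh X := fun i j a hij ha =>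
    Subgroup.subset_closure ⟨i, j, hij, Or.inl ⟨a, ha, rfl⟩⟩
  have hWa : ∀ (i j : Fin n) (a : F), i ≠ j → a ≠ 0 → Wr X i j a ∈ Nh X := by
    intro i j a hij ha
    have : Wr X i j a = Hr X i j a * Wr X i j 1 := by
      unfold Hr; group
    rw [this]
    exact mul_mem (hHmem i j a hij ha) (hWmem i j hij)
  have hX0 : ∀ i j : Fin n, i ≠ j → X i j 0 = 1 := by
    intro i j hij
    have h := hSt.add i j 0 0 hij
    rw [add_zero] at h
    exact mul_eq_left.mp h
  -- the torus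
  have hT : ∀ (i j : Fin n) (a : F), i ≠ j → a ≠ 0 → ∀ x, InC X x → InC X (x * Hr X i j a) := by
    rintro i j a hij ha x ⟨u, hu, m, hm, v, hv, rfl⟩
    have hmo := hWq.hmono i j a hij ha
    have hmo' := hm2 _ _ _ hmo
    rw [← map_inv] at hmo'
    have h1 : (Hr X i j a)⁻¹ * v * ((Hr X i j a)⁻¹)⁻¹ ∈ Up X := by
      refine conj_Up hC _ _ _ hmo' _ ?_ v hv
      rintro y ⟨k, l, b, hkl, rfl⟩
      exact ⟨k, l, b, hkl.ne, by simpa using hkl, rfl⟩
    refine ⟨u, hu, m * Hr X i j a, mul_mem hm (hHmem i j a hij ha), _, h1, ?_⟩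
    group
  -- the simple reflections
  have hW : ∀ r s : Fin n, (s : ℕ) = r + 1 → ∀ x, InC X x → InC X (x * Wr X r s 1) := by
    rintro r s hrs x ⟨u, hu, m, hm, v, hv, rfl⟩
    have hne : r ≠ s := by
      intro h; rw [h] at hrs; omega
    have hlt : r < s := by
      rw [Fin.lt_def]; omega
    have h10 : (1 : F) ≠ 0 := one_ne_zero
    obtain ⟨b, y, hy, rfl⟩ := hPUDC n F E φ X hSt r s hrs v hv
    have hmw := hWq.wmono r s 1 hne h10
    have hmw' := hm2 _ _ _ hmw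
    rw [← map_inv, Equiv.swap_inv] at hmw'
    set w := Wr X r s 1 with hw
    have h1 : w⁻¹ * y * (w⁻¹)⁻¹ ∈ Up X := by
      refine conj_Up hC _ _ _ hmw' _ ?_ y hy
      rintro z ⟨k, l, c, hkl, hnot, rfl⟩
      exact ⟨k, l, c, hkl.ne, swap_lt hrs hkl hnot, rfl⟩
    have h2 : u * m * (X r s b * y) * w = u * (m * X r s b * w) * (w⁻¹ * y * (w⁻¹)⁻¹) := by
      group
    rw [h2]
    refine inC_right (inC_left ?_ hu) h1
    obtain ⟨σ, c, hσ⟩ := hNh m hm
    have hσne : σ r ≠ σ s := fun h => hne (σ.injective h)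
    have hmw1 : m * w ∈ Nh X := mul_mem hm (hWmem r s hne)
    rcases lt_or_gt_of_ne hσne with hc | hc
    · have e1 : m * X r s b * w = (m * X r s b * m⁻¹) * (m * w) := by group
      rw [e1, hC.eqv m σ c hσ r s b hne]
      exact inC_left (inC_mem hmw1) (mem_Up _ hc)
    · have hmo2 := hm1 _ _ _ _ _ _ hσ hmw
      rw [← map_mul] at hmo2
      have e2 := hC.eqv w⁻¹ _ _ hmw' r s b hne
      rw [Equiv.swap_apply_left, Equiv.swap_apply_right, inv_inv] at e2
      have e1 : m * X r s b * w = (m * w) * (w⁻¹ * X r s b * w) := by group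
      obtain ⟨b', hb'⟩ : ∃ b', w⁻¹ * X r s b * w = X s r b' := ⟨_, e2⟩
      rw [e1, hb']
      by_cases hb0 : b' = 0
      · rw [hb0, hX0 s r hne.symm, mul_one]
        exact inC_mem hmw1
      · have ha : -b'⁻¹ ≠ 0 := neg_ne_zero.mpr (inv_ne_zero hb0)
        have e3 : X s r b' = X r s (-(-b'⁻¹)) * Wr X r s (-b'⁻¹) * X r s (-(-b'⁻¹)) := by
          have e4 : -(-b'⁻¹)⁻¹ = b' := by
            rw [inv_neg, inv_inv, neg_neg]
          rw [hC.neg r s (-b'⁻¹) hne]
          unfold Wr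
          rw [e4]
          group
        have e5 := hC.eqv (m * w) _ _ hmo2 r s (-(-b'⁻¹)) hne
        rw [Equiv.Perm.mul_apply, Equiv.Perm.mul_apply, Equiv.swap_apply_left,
          Equiv.swap_apply_right] at e5
        rw [e3]
        have e6 : m * w * (X r s (-(-b'⁻¹)) * Wr X r s (-b'⁻¹) * X r s (-(-b'⁻¹))) =
            (m * w * X r s (-(-b'⁻¹)) * (m * w)⁻¹) * ((m * w) * Wr X r s (-b'⁻¹)) *
              X r s (-(-b'⁻¹)) := by group
        rw [e6, e5]
        exact inC_right (inC_left (inC_mem (mul_mem hmw1 (hWa r s _ hne ha))) (mem_Up _ hc))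
          (mem_Up _ hlt)
  have hx' := hx
  rw [← Subgroup.mem_toSubmonoid, Subgroup.closure_toSubmonoid_of_finite] at hx'
  change InC X x
  induction hx' using Submonoid.closure_induction_right with
  | one => exact inC_mem (one_mem _)
  | mul_right x hx1 y hy ih =>
    have hx2 : x ∈ Subgroup.closure ({x | ∃ i j a, i < j ∧ x = X i j a} ∪
        {x | ∃ i j a, i ≠ j ∧ a ≠ 0 ∧ x = Hr X i j a} ∪
        {x | ∃ r s : Fin n, (s : ℕ) = r + 1 ∧ x = Wr X r s 1}) := by
      rw [← Subgroup.mem_toSubmonoid, Subgroup.closure_toSubmonoid_of_finite]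
      exact hx1
    have ih' := ih hx2
    rcases hy with (⟨i, j, a, hij, rfl⟩ | ⟨i, j, a, hij, ha, rfl⟩) | ⟨r, s, hrs, rfl⟩
    · exact inC_right ih' (mem_Up _ hij)
    · exact hT i j a hij ha x ih'
    · exact hW r s hrs x ih'

end Pool.Agent.Helper1.ML
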